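import Pool.Agent.H3.WLProof

set_option autoImplicit false

namespace Pool.Agent.Results.MP_493565_co.Counterexample

open Pool.Agent.H3.WLDefs Pool.Agent.H3.WLProof

/-- For every dimension `k = j + 1 ≥ 1` there are a vertex-coloured finite graph refined to its
orbits by `k`-dim WL and a vertex whose stabilisation is not refined to its orbits. -/
theorem result (j : ℕ) : ∃ (V C : Type) (_ : Fintype V) (G : SimpleGraph V) (col : V → C) (v : V),
    RefinesToOrbits G col j ∧ ¬ RefinesToOrbits G (stabilise col v) j := by
  refine ⟨V (j + 1), _, inferInstance, G (j + 1), col (j + 1), (0, 0), refines _ j, fun h => ?_⟩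
  obtain ⟨φ, h1, h2⟩ := (h _ _).1 (same_colour j)
  exact not_orbit _ φ h1 h2

end Pool.Agent.Results.MP_493565_co.Counterexample
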